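import Mathlib

open MeasureTheory Filter Finset
open scoped Topology

namespace Pool.Agent.Results.MP_b4ed43_an.NoBlockBound

/-- The circle `ℝ/ℤ`, i.e. `[-1/2, 1/2]` with endpoints identified. -/
abbrev Circ : Type := AddCircle (1 : ℝ)

/-- The sequences `(r_k)` of the problem. -/
structure Admissible (r : ℕ → ℝ) : Prop where
  strictMono : StrictMono r
  pos : ∀ k, 0 < r k
  lt : ∀ k : ℕ, r k < (2 : ℝ) ^ ((k : ℤ) - 10)
  tendsto : Tendsto r atTop atTop

/-- The spectrum `A`. -/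
def specA (r : ℕ → ℝ) : Set ℤ :=
  {n : ℤ | ∃ k : ℕ, (2 : ℝ) ^ k - r k ≤ (n : ℝ) ∧ (n : ℝ) ≤ (2 : ℝ) ^ k + r k}

/-- The indices `λ_s`. -/
noncomputable def lam (r : ℕ → ℝ) : ℕ → ℕ
  | 0 => 0
  | s + 1 => sInf {m : ℕ | (2 : ℝ) ^ (lam r s) ≤ r m}

/-- The functional `Φ`, with values in `[0, ∞]`. -/
noncomputable def Phi (r : ℕ → ℝ) (g : C(Circ, ℂ)) : ENNReal :=
  ∑' s : ℕ, (∑ k ∈ Finset.Ico (lam r s) (lam r (s + 1)),
    ENNReal.ofReal ‖fourierCoeff g ((2 : ℤ) ^ k)‖) ^ 2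

/-! ### Fourier coefficients as linear maps -/

theorem cont_integrable (f : C(Circ, ℂ)) : Integrable (f : Circ → ℂ) AddCircle.haarAddCircle :=
  f.continuous.integrable_of_hasCompactSupport (HasCompactSupport.of_compactSpace _)

/-- the `n`-th Fourier coefficient as a linear map -/
noncomputable def fc (n : ℤ) : C(Circ, ℂ) →ₗ[ℂ] ℂ where
  toFun f := fourierCoeff f n
  map_add' f g := by
    have := fourierCoeff.add (cont_integrable f) (cont_integrable g)
    exact congrFun this n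
  map_smul' c f := fourierCoeff.const_smul (f : Circ → ℂ) c n

theorem fc_apply (n : ℤ) (f : C(Circ, ℂ)) : fc n f = fourierCoeff f n := rfl

theorem fc_fourier (n m : ℤ) : fc n (fourier m) = if n = m then 1 else 0 := by
  rw [fc_apply, fourierCoeff_fourier, Pi.single_apply]

theorem fourier_mul' (m n : ℤ) : (fourier m : C(Circ, ℂ)) * fourier n = fourier (m + n) := by
  ext x
  simp only [ContinuousMap.mul_apply]
  exact fourier_add.symm

theorem star_fourier (m : ℤ) : star (fourier m : C(Circ, ℂ)) = fourier (-m) := by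
  ext x
  simp only [ContinuousMap.star_apply]
  exact fourier_neg.symm

theorem fc_fourier_mul (n m : ℤ) (f : C(Circ, ℂ)) :
    fc n (fourier m * f) = fc (n - m) f := by
  simp only [fc_apply, fourierCoeff]
  congr 1
  ext t
  simp only [ContinuousMap.mul_apply, smul_eq_mul]
  rw [← mul_assoc, ← fourier_add]
  congr 3
  ring

/-! ### Trigonometric polynomials -/

/-- trigonometric polynomials of degree at most `L` -/
noncomputable def TP (L : ℤ) : Submodule ℂ C(Circ, ℂ) :=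
  Submodule.span ℂ (fourier '' {n : ℤ | |n| ≤ L})

theorem fourier_mem_TP {L n : ℤ} (h : |n| ≤ L) : (fourier n : C(Circ, ℂ)) ∈ TP L :=
  Submodule.subset_span ⟨n, h, rfl⟩

theorem TP_mono {L L' : ℤ} (h : L ≤ L') : TP L ≤ TP L' := by
  apply Submodule.span_mono
  apply Set.image_mono
  intro n hn
  exact le_trans hn h

theorem TP_mul {L L' : ℤ} {f g : C(Circ, ℂ)} (hf : f ∈ TP L) (hg : g ∈ TP L') :
    f * g ∈ TP (L + L') := by
  have h1 : f * g ∈ TP L * TP L' := Submodule.mul_mem_mul hf hg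
  rw [TP, TP, Submodule.span_mul_span] at h1
  refine Submodule.span_mono ?_ h1
  rintro _ ⟨_, ⟨m, hm, rfl⟩, _, ⟨n, hn, rfl⟩, rfl⟩
  refine ⟨m + n, ?_, (fourier_mul' m n).symm⟩
  exact le_trans (abs_add_le m n) (add_le_add hm hn)

theorem one_mem_TP {L : ℤ} (h : 0 ≤ L) : (1 : C(Circ, ℂ)) ∈ TP L := by
  have : (1 : C(Circ, ℂ)) = fourier 0 := by
    ext x; simp
  rw [this]
  exact fourier_mem_TP (by simpa using h)

theorem TP_pow {L : ℤ} {f : C(Circ, ℂ)} (hf : f ∈ TP L) (n : ℕ) :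
    f ^ n ∈ TP (n * L) := by
  induction n with
  | zero => simpa using one_mem_TP (le_refl 0)
  | succ n ih =>
    rw [pow_succ]
    have := TP_mul ih hf
    have e : (n : ℤ) * L + L = ((n + 1 : ℕ) : ℤ) * L := by push_cast; ring
    rwa [e] at this

theorem fc_eq_zero_of_mem_TP {L n : ℤ} {f : C(Circ, ℂ)} (hf : f ∈ TP L) (hn : L < |n|) :
    fc n f = 0 := by
  have h : TP L ≤ LinearMap.ker (fc n) := by
    rw [TP, Submodule.span_le]
    rintro _ ⟨m, hm, rfl⟩
    simp only [SetLike.mem_coe, LinearMap.mem_ker, fc_fourier]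
    rw [if_neg]
    rintro rfl
    exact absurd hn (not_lt.2 hm)
  exact h hf

/-! ### The building blocks -/

/-- average of the characters `2^k`, `k ∈ [a, b)` -/
noncomputable def gg (a b : ℕ) : C(Circ, ℂ) :=
  ((b - a : ℕ) : ℂ)⁻¹ • ∑ k ∈ Finset.Ico a b, fourier ((2 : ℤ) ^ k)

theorem norm_gg_le {a b : ℕ} (h : a < b) (t : Circ) : ‖gg a b t‖ ≤ 1 := by
  have hpos : (0 : ℝ) < ((b - a : ℕ) : ℝ) := by
    have : 0 < b - a := by omega
    exact_mod_cast this
  simp only [gg, ContinuousMap.smul_apply, ContinuousMap.sum_apply, norm_smul, norm_inv,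
    Complex.norm_natCast]
  rw [inv_mul_le_iff₀ hpos, mul_one]
  refine le_trans (norm_sum_le _ _) ?_
  have : ∀ k ∈ Finset.Ico a b, ‖(fourier ((2 : ℤ) ^ k) : C(Circ, ℂ)) t‖ ≤ 1 := by
    intro k _
    rw [fourier_apply, Circle.norm_coe]
  refine le_trans (Finset.sum_le_sum this) ?_
  simp

/-- `|g|^2` as a trigonometric polynomial -/
theorem gg_mul_star_mem (a b : ℕ) : gg a b * star (gg a b) ∈ TP ((2 : ℤ) ^ b) := by
  simp only [gg, star_smul, star_sum, star_fourier, smul_mul_smul_comm]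
  apply Submodule.smul_mem
  rw [Finset.sum_mul_sum]
  apply Submodule.sum_mem
  intro i hi
  apply Submodule.sum_mem
  intro j hj
  rw [fourier_mul']
  apply fourier_mem_TP
  rw [Finset.mem_Ico] at hi hj
  have h1 : (2 : ℤ) ^ i ≤ 2 ^ b := pow_le_pow_right₀ (by norm_num) hi.2.le
  have h2 : (2 : ℤ) ^ j ≤ 2 ^ b := pow_le_pow_right₀ (by norm_num) hj.2.le
  have h3 : (0 : ℤ) < 2 ^ i := by positivity
  have h4 : (0 : ℤ) < 2 ^ j := by positivity
  rw [abs_le]
  constructor <;> linarith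

theorem fc_zero_gg {a b : ℕ} (h : a < b) :
    fc 0 (gg a b * star (gg a b)) = ((b - a : ℕ) : ℂ)⁻¹ := by
  have hne : ((b - a : ℕ) : ℂ) ≠ 0 := by
    have : b - a ≠ 0 := by omega
    exact_mod_cast this
  simp only [gg, star_smul, star_sum, star_fourier, smul_mul_smul_comm]
  rw [Finset.sum_mul_sum]
  simp only [map_smul, map_sum, fourier_mul', fc_fourier]
  have : ∀ i ∈ Finset.Ico a b, (∑ j ∈ Finset.Ico a b,
      if (0 : ℤ) = 2 ^ i + -2 ^ j then (1 : ℂ) else 0) = 1 := by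
    intro i hi
    rw [Finset.sum_eq_single i]
    · simp
    · intro j _ hj
      rw [if_neg]
      intro h0
      apply hj
      have : (2 : ℤ) ^ j = 2 ^ i := by linarith
      exact Int.pow_right_injective (by norm_num : 1 < Int.natAbs 2) this
    · intro h'; exact absurd hi h'
  rw [Finset.sum_congr rfl this]
  simp only [sum_const, Nat.card_Ico, nsmul_eq_mul, mul_one, smul_eq_mul]
  have hs : (starRingEnd ℂ) ((b - a : ℕ) : ℂ)⁻¹ = ((b - a : ℕ) : ℂ)⁻¹ := by
    rw [map_inv₀, Complex.conj_natCast]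
  rw [Complex.star_def, hs]
  field_simp

/-! ### Elementary inequalities -/

theorem one_sub_pow_le {y : ℝ} (h0 : 0 ≤ y) (h1 : y ≤ 1) (M : ℕ) :
    (1 - y) ^ M ≤ 1 / (1 + M * y) := by
  have hb : 1 + (M : ℝ) * y ≤ (1 + y) ^ M := one_add_mul_le_pow (by linarith) M
  have hp : (0 : ℝ) < 1 + M * y := by positivity
  rw [le_div_iff₀ hp]
  have h2 : (1 - y) ^ M * (1 + M * y) ≤ (1 - y) ^ M * (1 + y) ^ M :=
    mul_le_mul_of_nonneg_left hb (pow_nonneg (by linarith) M)
  refine le_trans h2 ?_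
  rw [← mul_pow]
  apply pow_le_one₀
  · nlinarith
  · nlinarith

theorem prod_le (x : ℕ → ℝ) (h0 : ∀ j, 0 ≤ x j) (h1 : ∀ j, x j ≤ 1) (M s : ℕ) :
    ∏ j ∈ range s, (1 - x j ^ 2) ^ M ≤ 1 / (1 + M * ∑ j ∈ range s, x j ^ 2) := by
  induction s with
  | zero => simp
  | succ s ih =>
    rw [prod_range_succ, sum_range_succ]
    have hy0 : 0 ≤ x s ^ 2 := sq_nonneg _
    have hy1 : x s ^ 2 ≤ 1 := by
      have := h0 s; have := h1 s; nlinarith
    have hA : 0 ≤ (M : ℝ) * ∑ j ∈ range s, x j ^ 2 := by positivity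
    have hB : 0 ≤ (M : ℝ) * x s ^ 2 := by positivity
    have h3 := one_sub_pow_le hy0 hy1 M
    have h4 : (∏ j ∈ range s, (1 - x j ^ 2) ^ M) * (1 - x s ^ 2) ^ M ≤
        (1 / (1 + M * ∑ j ∈ range s, x j ^ 2)) * (1 / (1 + M * x s ^ 2)) :=
      mul_le_mul ih h3 (pow_nonneg (by linarith) M) (by positivity)
    refine le_trans h4 ?_
    rw [one_div_mul_one_div]
    apply one_div_le_one_div_of_le
    · positivity
    · nlinarith [mul_nonneg hA hB]

theorem sum_bound (x : ℕ → ℝ) (h0 : ∀ j, 0 ≤ x j) (h1 : ∀ j, x j ≤ 1) (M : ℕ) :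
    ∀ n : ℕ, n ≤ M → ∑ s ∈ range n, x s * ∏ j ∈ range s, (1 - x j ^ 2) ^ M ≤
      4 * (1 - 1 / (1 + ∑ j ∈ range n, x j)) := by
  intro n
  induction n with
  | zero => simp
  | succ n ih =>
    intro hn
    rw [sum_range_succ, sum_range_succ _ n]
    have ih' := ih (by omega)
    set S := ∑ j ∈ range n, x j with hS
    have hS0 : 0 ≤ S := sum_nonneg fun j _ => h0 j
    have hx0 := h0 n
    have hx1 := h1 n
    have hcs : S ^ 2 ≤ (M : ℝ) * ∑ j ∈ range n, x j ^ 2 := by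
      have := sq_sum_le_card_mul_sum_sq (s := range n) (f := x)
      rw [card_range] at this
      refine le_trans this ?_
      apply mul_le_mul_of_nonneg_right
      · exact_mod_cast (by omega : n ≤ M)
      · positivity
    have hP : ∏ j ∈ range n, (1 - x j ^ 2) ^ M ≤ 1 / (1 + S ^ 2) := by
      refine le_trans (prod_le x h0 h1 M n) ?_
      apply one_div_le_one_div_of_le
      · positivity
      · linarith
    have h5 : x n * ∏ j ∈ range n, (1 - x j ^ 2) ^ M ≤ x n * (1 / (1 + S ^ 2)) :=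
      mul_le_mul_of_nonneg_left hP hx0
    have h6 : x n * (1 / (1 + S ^ 2)) ≤ 4 * (1 / (1 + S) - 1 / (1 + (S + x n))) := by
      rw [div_sub_div _ _ (by positivity) (by positivity), mul_one_div, ← mul_div_assoc,
        div_le_div_iff₀ (by positivity) (by positivity)]
      have : 1 * (1 + (S + x n)) - (1 + S) * 1 = x n := by ring
      rw [this]
      have h7 : (1 + S) * (1 + (S + x n)) ≤ 4 * (1 + S ^ 2) := by nlinarith [sq_nonneg (S - 1/2)]
      nlinarith [mul_le_mul_of_nonneg_left h7 hx0]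
    linarith

theorem sum_bound_four (x : ℕ → ℝ) (h0 : ∀ j, 0 ≤ x j) (h1 : ∀ j, x j ≤ 1) (M : ℕ) :
    ∑ s ∈ range M, x s * ∏ j ∈ range s, (1 - x j ^ 2) ^ M ≤ 4 := by
  have h := sum_bound x h0 h1 M M le_rfl
  have h2 : 0 ≤ 1 / (1 + ∑ j ∈ range M, x j) := by
    have : 0 ≤ ∑ j ∈ range M, x j := sum_nonneg fun j _ => h0 j
    positivity
  linarith

theorem prod_ge (y : ℕ → ℝ) (h0 : ∀ j, 0 ≤ y j) (h1 : ∀ j, y j ≤ 1) (M s : ℕ) :
    1 - M * ∑ j ∈ range s, y j ≤ ∏ j ∈ range s, (1 - y j) ^ M := by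
  induction s with
  | zero => simp
  | succ s ih =>
    rw [prod_range_succ, sum_range_succ]
    have hb : 1 + (M : ℝ) * (-y s) ≤ (1 + -y s) ^ M :=
      one_add_mul_le_pow (by linarith [h1 s]) M
    have hP0 : 0 ≤ ∏ j ∈ range s, (1 - y j) ^ M :=
      prod_nonneg fun j _ => pow_nonneg (by linarith [h1 j]) M
    have hP1 : ∏ j ∈ range s, (1 - y j) ^ M ≤ 1 :=
      prod_le_one (fun j _ => pow_nonneg (by linarith [h1 j]) M)
        (fun j _ => pow_le_one₀ (by linarith [h1 j]) (by linarith [h0 j]))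
    have h3 := mul_le_mul_of_nonneg_left hb hP0
    have h4 : 0 ≤ (M : ℝ) * y s := mul_nonneg (by positivity) (h0 s)
    have h5 : (∏ j ∈ range s, (1 - y j) ^ M) * (M * y s) ≤ M * y s := by
      nlinarith
    have e : (1 + -y s) = 1 - y s := by ring
    rw [e] at h3
    nlinarith

/-! ### The functions `V_s` -/

theorem re_fc_zero_nonneg {W : C(Circ, ℂ)} (h : ∀ t, 0 ≤ (W t).re) : 0 ≤ (fc 0 W).re := by
  have e : fc 0 W = ∫ t, W t ∂AddCircle.haarAddCircle := by
    simp [fc_apply, fourierCoeff]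
  rw [e]
  have e2 : (∫ t, W t ∂AddCircle.haarAddCircle).re = ∫ t, (W t).re ∂AddCircle.haarAddCircle := by
    have := integral_re (cont_integrable W)
    simpa using this.symm
  rw [e2]
  exact integral_nonneg h

/-- `V_s = ∏_{j<s} (1 - |g_j|^2)^M` -/
noncomputable def VV (M : ℕ) (G : ℕ → C(Circ, ℂ)) (s : ℕ) : C(Circ, ℂ) :=
  ∏ j ∈ range s, (1 - G j * star (G j)) ^ M

theorem VV_apply (M : ℕ) (G : ℕ → C(Circ, ℂ)) (s : ℕ) (t : Circ) :
    VV M G s t = ((∏ j ∈ range s, (1 - ‖G j t‖ ^ 2) ^ M : ℝ) : ℂ) := by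
  simp only [VV, ContinuousMap.prod_apply]
  rw [Complex.ofReal_prod]
  apply Finset.prod_congr rfl
  intro j _
  simp only [ContinuousMap.pow_apply, ContinuousMap.sub_apply, ContinuousMap.one_apply,
    ContinuousMap.mul_apply, ContinuousMap.star_apply]
  rw [Complex.star_def, Complex.mul_conj, Complex.normSq_eq_norm_sq]
  push_cast
  rfl

theorem VV_mem (M : ℕ) (G : ℕ → C(Circ, ℂ)) (d : ℕ → ℤ) (hd : ∀ j, 0 ≤ d j)
    (hG : ∀ j, G j * star (G j) ∈ TP (d j)) (s : ℕ) :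
    VV M G s ∈ TP (M * ∑ j ∈ range s, d j) := by
  induction s with
  | zero => simpa [VV] using one_mem_TP (le_refl 0)
  | succ s ih =>
    have h1 : (1 - G s * star (G s)) ∈ TP (d s) :=
      Submodule.sub_mem _ (one_mem_TP (hd s)) (hG s)
    have h2 := TP_mul ih (TP_pow h1 M)
    have e : (M : ℤ) * ∑ j ∈ range s, d j + M * d s = M * ∑ j ∈ range (s + 1), d j := by
      rw [sum_range_succ]; ring
    rw [e] at h2
    simpa [VV, prod_range_succ] using h2

theorem re_fc_VV (M : ℕ) (G : ℕ → C(Circ, ℂ)) (hG : ∀ j t, ‖G j t‖ ≤ 1) (s : ℕ) :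
    1 - M * ∑ j ∈ range s, (fc 0 (G j * star (G j))).re ≤ (fc 0 (VV M G s)).re := by
  have h := re_fc_zero_nonneg (W := VV M G s - 1 + (M : ℂ) • ∑ j ∈ range s, G j * star (G j)) ?_
  · rw [map_add, map_sub, map_smul, map_sum] at h
    have h1 : fc 0 (1 : C(Circ, ℂ)) = 1 := by
      have : (1 : C(Circ, ℂ)) = fourier 0 := by
        ext x; simp
      rw [this, fc_fourier, if_pos rfl]
    rw [h1] at h
    simp only [smul_eq_mul, Complex.add_re, Complex.sub_re, Complex.one_re, Complex.mul_re,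
      Complex.natCast_re, Complex.natCast_im, zero_mul, sub_zero, Complex.re_sum] at h
    linarith
  · intro t
    have h2 := prod_ge (fun j => ‖G j t‖ ^ 2) (fun j => sq_nonneg _)
      (fun j => pow_le_one₀ (norm_nonneg _) (hG j t)) M s
    simp only [ContinuousMap.add_apply, ContinuousMap.sub_apply, ContinuousMap.smul_apply,
      ContinuousMap.one_apply, ContinuousMap.sum_apply, ContinuousMap.mul_apply,
      ContinuousMap.star_apply, VV_apply, smul_eq_mul]
    have h3 : ∀ j, G j t * star (G j t) = ((‖G j t‖ ^ 2 : ℝ) : ℂ) := by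
      intro j
      rw [Complex.star_def, Complex.mul_conj, Complex.normSq_eq_norm_sq]
    simp only [h3]
    rw [← Complex.ofReal_sum, ← Complex.ofReal_natCast, ← Complex.ofReal_mul]
    rw [Complex.add_re, Complex.sub_re, Complex.ofReal_re, Complex.ofReal_re, Complex.one_re]
    linarith

/-! ### The sequence `r` -/

/-- the slowly growing sequence -/
noncomputable def rr (k : ℕ) : ℝ := ((k : ℝ) + 1) / 2048

theorem rr_admissible : Admissible rr where
  strictMono := by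
    intro a b h
    have : (a : ℝ) < b := by exact_mod_cast h
    simp only [rr]
    linarith
  pos k := by simp only [rr]; positivity
  lt k := by
    have h : ((k + 1 : ℕ) : ℝ) ≤ ((2 ^ k : ℕ) : ℝ) := by
      exact_mod_cast Nat.lt_two_pow_self
    push_cast at h
    have e : (2 : ℝ) ^ ((k : ℤ) - 10) = 2 ^ k / 1024 := by
      rw [zpow_sub₀ (by norm_num), zpow_natCast]
      norm_num
    rw [e, rr]
    have : (0 : ℝ) < 2 ^ k := by positivity
    linarith
  tendsto := by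
    have : Tendsto (fun k : ℕ => (k : ℝ)) atTop atTop := tendsto_natCast_atTop_atTop
    exact (this.atTop_add tendsto_const_nhds).atTop_div_const (by norm_num)

/-- the block ends for `rr` -/
def la : ℕ → ℕ
  | 0 => 0
  | s + 1 => 2 ^ (la s + 11) - 1

theorem rr_ge_iff (a k : ℕ) : (2 : ℝ) ^ a ≤ rr k ↔ 2 ^ (a + 11) - 1 ≤ k := by
  rw [rr, le_div_iff₀ (by norm_num)]
  have e : (2 : ℝ) ^ a * 2048 = ((2 ^ (a + 11) : ℕ) : ℝ) := by
    push_cast; rw [pow_add]; norm_num
  rw [e]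
  constructor
  · intro h
    have : (2 ^ (a + 11) : ℕ) ≤ k + 1 := by exact_mod_cast h
    omega
  · intro h
    have : (2 ^ (a + 11) : ℕ) ≤ k + 1 := by omega
    exact_mod_cast this

theorem lam_rr : ∀ s, lam rr s = la s := by
  intro s
  induction s with
  | zero => rfl
  | succ s ih =>
    simp only [lam, la]
    rw [ih]
    have : {m : ℕ | (2 : ℝ) ^ (la s) ≤ rr m} = Set.Ici (2 ^ (la s + 11) - 1) := by
      ext m
      simp only [Set.mem_ofPred_eq, Set.mem_Ici]
      exact rr_ge_iff _ _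
    rw [this]
    exact csInf_Ici

theorem la_ge (s : ℕ) : s ≤ la s := by
  induction s with
  | zero => simp
  | succ s ih =>
    simp only [la]
    have h1 : la s + 11 < 2 ^ (la s + 11) := Nat.lt_two_pow_self
    omega

theorem la_step (s : ℕ) : la s + 2 ^ s ≤ la (s + 1) := by
  simp only [la]
  have h1 : la s < 2 ^ la s := Nat.lt_two_pow_self
  have h2 : 2 ^ s ≤ 2 ^ la s := Nat.pow_le_pow_right (by norm_num) (la_ge s)
  have h3 : 2 ^ (la s + 11) = 2048 * 2 ^ la s := by rw [pow_add]; norm_num; ring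
  omega

theorem la_mono : Monotone la := by
  apply monotone_nat_of_le_succ
  intro s
  exact le_trans (Nat.le_add_right _ _) (la_step s)

/-! ### The example -/

section Example

variable (M : ℕ)

/-- the block used at step `j` -/
def tau (j : ℕ) : ℕ := 3 * j + (2 * M + 1)

/-- the averages over the chosen blocks -/
noncomputable def GG (j : ℕ) : C(Circ, ℂ) := gg (la (tau M j)) (la (tau M j + 1))

theorem tau_lt (j : ℕ) : la (tau M j) < la (tau M j + 1) := by
  have := la_step (tau M j)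
  have h : 0 < 2 ^ tau M j := by positivity
  omega

theorem sq_le_pow (M : ℕ) : 2 * M * M ≤ 2 ^ (2 * M + 1) := by
  have h : M < 2 ^ M := Nat.lt_two_pow_self
  have e : 2 ^ (2 * M + 1) = 2 * (2 ^ M * 2 ^ M) := by
    rw [pow_succ, two_mul, pow_add]; ring
  rw [e]
  have := Nat.mul_le_mul h.le h.le
  nlinarith

theorem block_len (j : ℕ) :
    2 * M * M ≤ la (tau M j + 1) - la (tau M j) := by
  have h1 := la_step (tau M j)
  have h2 := sq_le_pow M
  have h3 : 2 ^ (2 * M + 1) ≤ 2 ^ tau M j :=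
    Nat.pow_le_pow_right (by norm_num) (by unfold tau; omega)
  omega

/-- the degree of `V_s` -/
def dd (s : ℕ) : ℤ := M * ∑ j ∈ range s, (2 : ℤ) ^ (la (tau M j + 1))

theorem arith1 {B T S m n : ℤ} (hm : 0 ≤ m) (hB : 0 ≤ B) (hS : S ≤ n * B) (hT : m * n ≤ T) :
    m * S ≤ B * T := by
  calc m * S ≤ m * (n * B) := mul_le_mul_of_nonneg_left hS hm
    _ = (m * n) * B := by ring
    _ ≤ T * B := mul_le_mul_of_nonneg_right hT hB
    _ = B * T := mul_comm _ _

theorem dd_aux1 (s : ℕ) : ∑ j ∈ range (s + 1), (2 : ℤ) ^ (la (tau M j + 1)) ≤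
    ((s + 1 : ℕ) : ℤ) * (2 : ℤ) ^ (la (tau M s + 1)) := by
  have h3 : ∑ j ∈ range (s + 1), (2 : ℤ) ^ (la (tau M j + 1)) ≤
      ∑ j ∈ range (s + 1), (2 : ℤ) ^ (la (tau M s + 1)) := by
    apply sum_le_sum
    intro j hj
    apply pow_le_pow_right₀ (by norm_num)
    apply la_mono
    rw [mem_range] at hj
    unfold tau
    omega
  rwa [sum_const, card_range, nsmul_eq_mul] at h3

theorem dd_aux2 (s : ℕ) :
    (2 : ℤ) ^ (la (tau M s + 1)) * 2 ^ (2 * M + 1) ≤ 2 ^ la (tau M s + 2) := by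
  rw [← pow_add]
  apply pow_le_pow_right₀ (by norm_num)
  have h4 : la (tau M s + 1) + 2 ^ (tau M s + 1) ≤ la (tau M s + 2) := la_step (tau M s + 1)
  have h5 : tau M s + 1 < 2 ^ (tau M s + 1) := Nat.lt_two_pow_self
  have h6 : 2 * M + 1 ≤ tau M s := by unfold tau; omega
  omega

theorem dd_aux3 {s : ℕ} (hs : s + 1 ≤ M) : (M : ℤ) * ((s + 1 : ℕ) : ℤ) ≤ 2 ^ (2 * M + 1) := by
  have := sq_le_pow M
  have h8 : M * (s + 1) ≤ M * M := Nat.mul_le_mul_left M hs
  have h9 : M * (s + 1) ≤ 2 ^ (2 * M + 1) := by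
    refine le_trans h8 (le_trans ?_ this)
    rw [mul_assoc]
    exact Nat.le_mul_of_pos_left _ (by norm_num)
  have h10 : ((M * (s + 1) : ℕ) : ℤ) ≤ ((2 ^ (2 * M + 1) : ℕ) : ℤ) := Int.ofNat_le.2 h9
  rw [Nat.cast_mul, Nat.cast_pow] at h10
  exact h10

theorem dd_aux {s : ℕ} (hs : s + 1 ≤ M) : dd M (s + 1) ≤ (2 : ℤ) ^ la (tau M s + 2) :=
  le_trans (arith1 (Int.natCast_nonneg M) (pow_nonneg (by norm_num) _) (dd_aux1 M s)
    (dd_aux3 M hs)) (dd_aux2 M s)

theorem dd_le {s : ℕ} (hs : s ≤ M) (k : ℕ) (hk : la (tau M s) ≤ k) :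
    ((dd M s : ℤ) : ℝ) ≤ rr k := by
  rcases Nat.eq_zero_or_pos s with h0 | hpos
  · subst h0
    simp only [dd, range_zero, sum_empty, mul_zero, Int.cast_zero]
    exact (rr_admissible.pos k).le
  · obtain ⟨s, rfl⟩ : ∃ s', s = s' + 1 := ⟨s - 1, by omega⟩
    have ht : tau M (s + 1) = (tau M s + 2) + 1 := by unfold tau; ring
    have h1 : (2 : ℝ) ^ la (tau M s + 2) ≤ rr k := by
      rw [rr_ge_iff]
      rw [ht] at hk
      exact hk
    refine le_trans ?_ h1
    have h2 : ((dd M (s + 1) : ℤ) : ℝ) ≤ (((2 : ℤ) ^ la (tau M s + 2) : ℤ) : ℝ) :=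
      Int.cast_le.2 (dd_aux M hs)
    rwa [Int.cast_pow] at h2

theorem GG_norm (j : ℕ) (t : Circ) : ‖GG M j t‖ ≤ 1 := norm_gg_le (tau_lt M j) t

theorem V_mem (s : ℕ) : VV M (GG M) s ∈ TP (dd M s) :=
  VV_mem M (GG M) (fun j => (2 : ℤ) ^ (la (tau M j + 1))) (fun j => by positivity)
    (fun j => gg_mul_star_mem _ _) s

theorem V_zero {s : ℕ} (hs : s ≤ M) : 1 / 2 ≤ (fc 0 (VV M (GG M) s)).re := by
  refine le_trans ?_ (re_fc_VV M (GG M) (GG_norm M) s)
  rcases Nat.eq_zero_or_pos M with h0 | hpos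
  · subst h0; simp; try norm_num
  have hM : (0 : ℝ) < M := by exact_mod_cast hpos
  have h1 : ∀ j ∈ range s, (fc 0 (GG M j * star (GG M j))).re ≤ 1 / (2 * M * M) := by
    intro j _
    rw [GG, fc_zero_gg (tau_lt M j), ← Complex.ofReal_natCast, ← Complex.ofReal_inv,
      Complex.ofReal_re, ← one_div]
    apply one_div_le_one_div_of_le (by positivity)
    exact_mod_cast block_len M j
  have h2 := sum_le_sum h1
  rw [sum_const, card_range, nsmul_eq_mul] at h2
  have h3 : (s : ℝ) * (1 / (2 * M * M)) ≤ M * (1 / (2 * M * M)) := by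
    apply mul_le_mul_of_nonneg_right
    · exact_mod_cast hs
    · positivity
  have h4 : (M : ℝ) * ∑ j ∈ range s, (fc 0 (GG M j * star (GG M j))).re ≤
      M * (M * (1 / (2 * M * M))) :=
    mul_le_mul_of_nonneg_left (le_trans h2 h3) hM.le
  have h5 : (M : ℝ) * (M * (1 / (2 * M * M))) = 1 / 2 := by
    field_simp
  linarith

/-- the test function -/
noncomputable def ff : C(Circ, ℂ) := ∑ s ∈ range M, GG M s * VV M (GG M) s

theorem ff_norm : ‖ff M‖ ≤ 4 := by
  rw [ContinuousMap.norm_le _ (by norm_num)]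
  intro t
  simp only [ff, ContinuousMap.sum_apply, ContinuousMap.mul_apply, VV_apply]
  refine le_trans (norm_sum_le _ _) ?_
  refine le_trans (le_of_eq ?_) (sum_bound_four (fun j => ‖GG M j t‖) (fun j => norm_nonneg _)
    (fun j => GG_norm M j t) M)
  apply sum_congr rfl
  intro s _
  rw [norm_mul, Complex.norm_real, Real.norm_of_nonneg]
  apply prod_nonneg
  intro j _
  apply pow_nonneg
  have := GG_norm M j t
  have h0 := norm_nonneg (GG M j t)
  nlinarith

theorem fc_term (n : ℤ) (s : ℕ) :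
    fc n (GG M s * VV M (GG M) s) = ((la (tau M s + 1) - la (tau M s) : ℕ) : ℂ)⁻¹ *
      ∑ k ∈ Finset.Ico (la (tau M s)) (la (tau M s + 1)), fc (n - 2 ^ k) (VV M (GG M) s) := by
  rw [GG, gg, smul_mul_assoc, sum_mul, map_smul, map_sum, smul_eq_mul]
  simp only [fc_fourier_mul]

theorem ff_spec (n : ℤ) (hn : n ∉ specA rr) : fc n (ff M) = 0 := by
  rw [ff, map_sum]
  apply sum_eq_zero
  intro s hs
  rw [mem_range] at hs
  rw [fc_term]
  apply mul_eq_zero_of_right
  apply sum_eq_zero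
  intro k hk
  rw [Finset.mem_Ico] at hk
  apply fc_eq_zero_of_mem_TP (V_mem M s)
  by_contra hcon
  rw [not_lt] at hcon
  apply hn
  refine ⟨k, ?_⟩
  have h1 := dd_le M hs.le k hk.1
  have h2 : |(n : ℝ) - 2 ^ k| ≤ rr k := by
    refine le_trans ?_ h1
    exact_mod_cast hcon
  rw [abs_le] at h2
  constructor <;> linarith [h2.1, h2.2]

theorem rr_lt (k : ℕ) : rr k < (2 : ℝ) ^ k / 2 := by
  have h := rr_admissible.lt k
  have e : (2 : ℝ) ^ ((k : ℤ) - 10) = 2 ^ k / 1024 := by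
    rw [zpow_sub₀ (by norm_num), zpow_natCast]
    norm_num
  rw [e] at h
  have : (0 : ℝ) < 2 ^ k := by positivity
  linarith

theorem sep {k k' : ℕ} (h : k ≠ k') : rr k' < |((2 : ℤ) ^ k - 2 ^ k' : ℤ)| := by
  refine lt_of_lt_of_le (rr_lt k') ?_
  have key : (2 : ℤ) ^ k' ≤ 2 * |(2 : ℤ) ^ k - 2 ^ k'| := by
    rcases lt_or_gt_of_ne h with h1 | h1
    · have : (2 : ℤ) ^ (k + 1) ≤ 2 ^ k' := pow_le_pow_right₀ (by norm_num) h1
      rw [pow_succ] at this
      have h0 : (0 : ℤ) < 2 ^ k := by positivity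
      rw [abs_sub_comm, abs_of_nonneg (by linarith)]
      linarith
    · have : (2 : ℤ) ^ (k' + 1) ≤ 2 ^ k := pow_le_pow_right₀ (by norm_num) h1
      rw [pow_succ] at this
      have h0 : (0 : ℤ) < 2 ^ k' := by positivity
      rw [abs_of_nonneg (by linarith)]
      linarith
  have key2 : (2 : ℝ) ^ k' ≤ 2 * ((|(2 : ℤ) ^ k - 2 ^ k'| : ℤ) : ℝ) := by exact_mod_cast key
  linarith

theorem fc_term_pow {s : ℕ} (hs : s ≤ M) (k : ℕ) :
    fc ((2 : ℤ) ^ k) (GG M s * VV M (GG M) s) =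
      if k ∈ Finset.Ico (la (tau M s)) (la (tau M s + 1)) then
        ((la (tau M s + 1) - la (tau M s) : ℕ) : ℂ)⁻¹ * fc 0 (VV M (GG M) s) else 0 := by
  rw [fc_term]
  have h : ∀ k' ∈ Finset.Ico (la (tau M s)) (la (tau M s + 1)), k ≠ k' →
      fc ((2 : ℤ) ^ k - 2 ^ k') (VV M (GG M) s) = 0 := by
    intro k' hk' hne
    rw [Finset.mem_Ico] at hk'
    apply fc_eq_zero_of_mem_TP (V_mem M s)
    have h1 := dd_le M hs k' hk'.1
    have h2 := lt_of_le_of_lt h1 (sep hne)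
    exact_mod_cast h2
  split_ifs with hk
  · rw [sum_eq_single_of_mem k hk (fun k' hk' hne => h k' hk' (Ne.symm hne)), sub_self]
  · rw [sum_eq_zero, mul_zero]
    intro k' hk'
    apply h k' hk'
    rintro rfl
    exact hk hk'

theorem disj {s s' : ℕ} {k : ℕ} (h : k ∈ Finset.Ico (la (tau M s)) (la (tau M s + 1)))
    (h' : k ∈ Finset.Ico (la (tau M s')) (la (tau M s' + 1))) : s = s' := by
  rw [Finset.mem_Ico] at h h'
  by_contra hne
  rcases lt_or_gt_of_ne hne with h1 | h1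
  · have : la (tau M s + 1) ≤ la (tau M s') := la_mono (by unfold tau; omega)
    omega
  · have : la (tau M s' + 1) ≤ la (tau M s) := la_mono (by unfold tau; omega)
    omega

theorem ff_coeff {s : ℕ} (hs : s < M) {k : ℕ}
    (hk : k ∈ Finset.Ico (la (tau M s)) (la (tau M s + 1))) :
    fc ((2 : ℤ) ^ k) (ff M) =
      ((la (tau M s + 1) - la (tau M s) : ℕ) : ℂ)⁻¹ * fc 0 (VV M (GG M) s) := by
  rw [ff, map_sum, sum_eq_single_of_mem s (mem_range.2 hs)]
  · rw [fc_term_pow M hs.le, if_pos hk]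
  · intro s' hs' hne
    rw [mem_range] at hs'
    rw [fc_term_pow M hs'.le, if_neg]
    intro h'
    exact hne (disj M h' hk)

theorem block_sum {s : ℕ} (hs : s < M) :
    1 / 2 ≤ ∑ k ∈ Finset.Ico (la (tau M s)) (la (tau M s + 1)), ‖fc ((2 : ℤ) ^ k) (ff M)‖ := by
  have h1 : ∀ k ∈ Finset.Ico (la (tau M s)) (la (tau M s + 1)), ‖fc ((2 : ℤ) ^ k) (ff M)‖ =
      ((la (tau M s + 1) - la (tau M s) : ℕ) : ℝ)⁻¹ * ‖fc 0 (VV M (GG M) s)‖ := by
    intro k hk
    rw [ff_coeff M hs hk, norm_mul, norm_inv, Complex.norm_natCast]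
  rw [sum_congr rfl h1, sum_const, Nat.card_Ico, nsmul_eq_mul, ← mul_assoc, mul_inv_cancel₀,
    one_mul]
  · exact le_trans (V_zero M hs.le) (Complex.re_le_norm _)
  · have := tau_lt M s
    have h : la (tau M s + 1) - la (tau M s) ≠ 0 := by omega
    exact_mod_cast h

end Example

/-- **Negative answer to Q1.** -/
theorem result : ∃ r : ℕ → ℝ, Admissible r ∧ ∀ C : ℝ, ∃ f : C(Circ, ℂ),
    (∀ n : ℤ, n ∉ specA r → fourierCoeff f n = 0) ∧ ENNReal.ofReal (C * ‖f‖ ^ 2) < Phi r f := by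
  refine ⟨rr, rr_admissible, fun C => ?_⟩
  obtain ⟨M, hM⟩ := exists_nat_gt (64 * |C|)
  refine ⟨ff M, fun n hn => ff_spec M n hn, ?_⟩
  have h1 : C * ‖ff M‖ ^ 2 ≤ |C| * 16 := by
    have h2 : ‖ff M‖ ^ 2 ≤ 16 := by
      have := ff_norm M
      have h0 := norm_nonneg (ff M)
      nlinarith
    calc C * ‖ff M‖ ^ 2 ≤ |C| * ‖ff M‖ ^ 2 :=
          mul_le_mul_of_nonneg_right (le_abs_self C) (sq_nonneg _)
      _ ≤ |C| * 16 := mul_le_mul_of_nonneg_left h2 (abs_nonneg C)
  have h3 : C * ‖ff M‖ ^ 2 < M * (1 / 4) := by linarith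
  have hMpos : (0 : ℝ) < M := lt_of_le_of_lt (by positivity) hM
  refine lt_of_lt_of_le ((ENNReal.ofReal_lt_ofReal_iff (by positivity)).2 h3) ?_
  have h4 : ∑ s ∈ (range M).map ⟨tau M, fun a b h => by simpa [tau] using h⟩,
      (∑ k ∈ Finset.Ico (lam rr s) (lam rr (s + 1)),
        ENNReal.ofReal ‖fourierCoeff (ff M) ((2 : ℤ) ^ k)‖) ^ 2 ≤ Phi rr (ff M) :=
    ENNReal.sum_le_tsum _
  refine le_trans ?_ h4
  rw [sum_map]
  have h5 : ∀ s ∈ range M, ENNReal.ofReal (1 / 4) ≤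
      (∑ k ∈ Finset.Ico (lam rr (tau M s)) (lam rr (tau M s + 1)),
        ENNReal.ofReal ‖fourierCoeff (ff M) ((2 : ℤ) ^ k)‖) ^ 2 := by
    intro s hs
    rw [mem_range] at hs
    rw [lam_rr, lam_rr, ← ENNReal.ofReal_sum_of_nonneg (fun _ _ => norm_nonneg _),
      ← ENNReal.ofReal_pow (sum_nonneg fun _ _ => norm_nonneg _)]
    apply ENNReal.ofReal_le_ofReal
    have := block_sum M hs
    have e : ∀ k, ‖fourierCoeff (ff M) ((2 : ℤ) ^ k)‖ = ‖fc ((2 : ℤ) ^ k) (ff M)‖ := fun k => rfl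
    simp only [e]
    nlinarith
  refine le_trans ?_ (sum_le_sum h5)
  rw [sum_const, card_range, nsmul_eq_mul, ENNReal.ofReal_mul (by positivity),
    ENNReal.ofReal_natCast]

end Pool.Agent.Results.MP_b4ed43_an.NoBlockBound
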